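import Mathlib

/-! # The Baer-Suzuki theorem (Alperin-Lyons proof) -/

namespace Pool.H59.BS

open Subgroup

variable {M : Type*} [Group M]

theorem mem_norm_of_conj [Finite M] {A : Subgroup M} {x : M}
    (h : ∀ a, a ∈ A → x * a * x⁻¹ ∈ A) : x ∈ normalizer (A : Set M) := by
  rw [mem_normalizer_iff]
  intro a
  refine ⟨h a, fun ha => ?_⟩
  -- powers of x also conjugate A into A
  have hpow : ∀ n : ℕ, ∀ b, b ∈ A → x ^ n * b * (x ^ n)⁻¹ ∈ A := by
    intro n
    induction n with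
    | zero => intro b hb; simpa using hb
    | succ n ih =>
      intro b hb
      have := h _ (ih b hb)
      have e : x ^ (n + 1) * b * (x ^ (n + 1))⁻¹ = x * (x ^ n * b * (x ^ n)⁻¹) * x⁻¹ := by
        rw [pow_succ']; group
      rw [e]; exact this
  obtain ⟨n, hn, hxn⟩ := isOfFinOrder_iff_pow_eq_one.mp (isOfFinOrder_of_finite x)
  have h2 := hpow (n - 1) _ ha
  have e1 : x ^ (n - 1) = x⁻¹ := by
    rw [eq_inv_iff_mul_eq_one, ← pow_succ, Nat.sub_add_cancel hn, hxn]
  rw [e1] at h2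
  have e2 : x⁻¹ * (x * a * x⁻¹) * x⁻¹⁻¹ = a := by group
  rwa [e2] at h2

theorem exists_norm [Finite M] {p : ℕ} [Fact p.Prime] (P : Subgroup M) (hP : IsPGroup p P)
    (D : Set M) (hD : ∀ g ∈ P, ∀ x ∈ D, g * x * g⁻¹ ∈ D) (A : Subgroup M) (hAP : A ≤ P)
    (hA : A = closure (D ∩ A)) (hx : ∃ x ∈ D, x ∈ P ∧ x ∉ A) :
    ∃ x ∈ D, x ∈ P ∧ x ∉ A ∧ ∀ a, a ∈ A → x * a * x⁻¹ ∈ A := by
  classical
  let S : Set (Subgroup M) := {B | A ≤ B ∧ B ≤ P ∧ D ∩ B ⊆ (A : Set M)}
  have hS : S.Nonempty := ⟨A, le_refl _, hAP, fun a ha => ha.2⟩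
  obtain ⟨B, hB⟩ := (Set.toFinite S).exists_maximal hS
  obtain ⟨⟨hAB, hBP, hDB⟩, hmax⟩ := hB
  obtain ⟨x0, hx0D, hx0P, hx0A⟩ := hx
  have hne : B ≠ P := by
    rintro rfl
    exact hx0A (hDB ⟨hx0D, hx0P⟩)
  -- normalizer condition inside P
  have hnil : Group.IsNilpotent P := hP.isNilpotent
  have hnc : NormalizerCondition P := Group.normalizerCondition_of_isNilpotent
  have hlt : B.subgroupOf P < ⊤ := by
    rw [lt_top_iff_ne_top]
    intro h
    rw [subgroupOf_eq_top] at h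
    exact hne (le_antisymm hBP h)
  obtain ⟨n, hn1, hn2⟩ := SetLike.exists_of_lt (hnc _ hlt)
  let C : Subgroup M := P ⊓ normalizer (B : Set M)
  have hBC : B ≤ C := le_inf hBP le_normalizer
  have hnC : (n : M) ∈ C := by
    refine ⟨n.2, ?_⟩
    apply mem_norm_of_conj
    intro b hb
    rw [mem_normalizer_iff] at hn1
    have := (hn1 ⟨b, hBP hb⟩).mp (by rw [mem_subgroupOf]; exact hb)
    rw [mem_subgroupOf] at this
    simpa using this
  have hnB : (n : M) ∉ B := by
    intro h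
    exact hn2 (by rw [mem_subgroupOf]; exact h)
  have hCS : ¬ (D ∩ C ⊆ (A : Set M)) := by
    intro h
    have : C ≤ B := hmax (y := C) ⟨hAB.trans hBC, inf_le_left, h⟩ hBC
    exact hnB (this hnC)
  rw [Set.not_subset] at hCS
  obtain ⟨x, ⟨hxD, hxC⟩, hxA⟩ := hCS
  refine ⟨x, hxD, hxC.1, hxA, ?_⟩
  intro a ha
  have hxB : x ∈ normalizer (B : Set M) := hxC.2
  rw [mem_normalizer_iff] at hxB
  rw [hA] at ha
  induction ha using closure_induction with
  | mem a ha =>
    exact hDB ⟨hD x hxC.1 a ha.1, (hxB a).mp (hAB ha.2)⟩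
  | one => simp [one_mem]
  | mul a b _ _ iha ihb =>
    have e : x * (a * b) * x⁻¹ = (x * a * x⁻¹) * (x * b * x⁻¹) := by group
    rw [e]; exact mul_mem iha ihb
  | inv a _ iha =>
    have e : x * a⁻¹ * x⁻¹ = (x * a * x⁻¹)⁻¹ := by group
    rw [e]; exact inv_mem iha

theorem ncard_eq [Finite M] {p : ℕ} [Fact p.Prime] (D : Set M)
    (hD : ∀ g x, x ∈ D → g * x * g⁻¹ ∈ D) (P Q : Sylow p M) :
    (D ∩ P).ncard = (D ∩ Q).ncard := by
  have key : ∀ P Q : Sylow p M, (D ∩ P).ncard ≤ (D ∩ Q).ncard := by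
    intro P Q
    obtain ⟨g, hg⟩ := MulAction.exists_smul_eq M P Q
    refine Set.ncard_le_ncard_of_injOn (fun x => g * x * g⁻¹) ?_ ?_ (Set.toFinite _)
    · rintro x ⟨hx1, hx2⟩
      refine ⟨hD g x hx1, ?_⟩
      rw [← hg]
      change g * x * g⁻¹ ∈ g • P
      rw [Sylow.smul_def]
      exact ⟨x, hx2, rfl⟩
    · intro x _ y _ hxy
      simpa using hxy
  exact le_antisymm (key P Q) (key Q P)

theorem baer_suzuki_set [Finite M] {p : ℕ} [Fact p.Prime] (D : Set M)
    (hD : ∀ g x, x ∈ D → g * x * g⁻¹ ∈ D)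
    (hp : ∀ x ∈ D, ∀ y ∈ D, IsPGroup p (closure ({x, y} : Set M))) :
    IsPGroup p (closure D) := by
  classical
  by_cases hall : ∀ P Q : Sylow p M, D ∩ P ⊆ (Q : Set M)
  · obtain ⟨P⟩ : Nonempty (Sylow p M) := inferInstance
    have : closure D ≤ (P : Subgroup M) := by
      rw [closure_le]
      intro d hd
      obtain ⟨Q, hQ⟩ := (hp d hd d hd).exists_le_sylow
      have hdQ : d ∈ Q := hQ (subset_closure (by simp))
      exact hall Q P ⟨hd, hdQ⟩
    exact P.isPGroup'.to_le this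
  · exfalso
    push Not at hall
    obtain ⟨P0, Q0, h0⟩ := hall
    let T : Set (Sylow p M × Sylow p M) := {x | ¬ (D ∩ x.1 ⊆ (x.2 : Set M))}
    have hT : T.Nonempty := ⟨(P0, Q0), h0⟩
    obtain ⟨⟨P, Q⟩, hPQ, hmax⟩ := Set.exists_max_image T
      (fun x => (D ∩ (x.1 : Set M) ∩ (x.2 : Set M)).ncard) (Set.toFinite T) hT
    have hPQ' : ¬ (D ∩ (P : Set M) ⊆ (Q : Set M)) := hPQ
    have eqof : ∀ R S : Sylow p M, D ∩ (R : Set M) ⊆ (S : Set M) →
        D ∩ (R : Set M) = D ∩ (S : Set M) := by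
      intro R S h
      refine Set.eq_of_subset_of_ncard_le (fun x hx => ⟨hx.1, h hx⟩) ?_ (Set.toFinite _)
      rw [ncard_eq D hD R S]
    have hQP' : ¬ (D ∩ (Q : Set M) ⊆ (P : Set M)) := by
      intro h
      apply hPQ'
      rw [← eqof Q P h]
      exact Set.inter_subset_right
    let A : Subgroup M := closure (D ∩ P ∩ Q)
    have hAP : A ≤ P := by
      rw [closure_le]; exact fun x hx => hx.1.2
    have hAQ : A ≤ Q := by
      rw [closure_le]; exact fun x hx => hx.2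
    have hDA : D ∩ (A : Set M) = D ∩ P ∩ Q := by
      apply Set.Subset.antisymm
      · intro x hx
        exact ⟨⟨hx.1, hAP hx.2⟩, hAQ hx.2⟩
      · intro x hx
        exact ⟨hx.1.1, subset_closure hx⟩
    have hA : A = closure (D ∩ A) := by rw [hDA]
    have hPx : ∃ x ∈ D, x ∈ (P : Subgroup M) ∧ x ∉ A := by
      rw [Set.not_subset] at hPQ'
      obtain ⟨x, hx, hxQ⟩ := hPQ'
      exact ⟨x, hx.1, hx.2, fun h => hxQ (hAQ h)⟩
    have hQx : ∃ x ∈ D, x ∈ (Q : Subgroup M) ∧ x ∉ A := by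
      rw [Set.not_subset] at hQP'
      obtain ⟨x, hx, hxP⟩ := hQP'
      exact ⟨x, hx.1, hx.2, fun h => hxP (hAP h)⟩
    obtain ⟨x, hxD, hxP, hxA, hxn⟩ := exists_norm (P : Subgroup M) P.isPGroup' D
      (fun g _ x hx => hD g x hx) A hAP hA hPx
    obtain ⟨y, hyD, hyQ, hyA, hyn⟩ := exists_norm (Q : Subgroup M) Q.isPGroup' D
      (fun g _ x hx => hD g x hx) A hAQ hA hQx
    have hK : closure ({x, y} : Set M) ≤ normalizer (A : Set M) := by
      rw [closure_le]
      intro u hu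
      rcases hu with rfl | hu
      · exact mem_norm_of_conj hxn
      · rw [Set.mem_singleton_iff] at hu
        subst hu
        exact mem_norm_of_conj hyn
    have hpA : IsPGroup p A := P.isPGroup'.to_le hAP
    have hKA := IsPGroup.to_sup_of_normal_right' (hp x hxD y hyD) hpA hK
    obtain ⟨R, hR⟩ := hKA.exists_le_sylow
    have hxR : x ∈ R := hR (le_sup_left (a := closure ({x, y} : Set M))
      (subset_closure (by simp)))
    have hyR : y ∈ R := hR (le_sup_left (a := closure ({x, y} : Set M))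
      (subset_closure (by simp)))
    have hAR : A ≤ R := le_trans le_sup_right hR
    have hPR : D ∩ (P : Set M) ⊆ (R : Set M) := by
      by_contra h
      have h1 := hmax (P, R) h
      have h2 : (D ∩ (P : Set M) ∩ (Q : Set M)).ncard < (D ∩ (P : Set M) ∩ (R : Set M)).ncard := by
        apply Set.ncard_lt_ncard _ (Set.toFinite _)
        refine ⟨fun u hu => ⟨hu.1, hAR (subset_closure hu)⟩, fun hsub => ?_⟩
        exact hxA (subset_closure (hsub ⟨⟨hxD, hxP⟩, hxR⟩))
      simp only at h1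
      omega
    have hQR : D ∩ (Q : Set M) ⊆ (R : Set M) := by
      by_contra h
      have h1 := hmax (Q, R) h
      have h2 : (D ∩ (P : Set M) ∩ (Q : Set M)).ncard < (D ∩ (Q : Set M) ∩ (R : Set M)).ncard := by
        apply Set.ncard_lt_ncard _ (Set.toFinite _)
        refine ⟨fun u hu => ⟨⟨hu.1.1, hu.2⟩, hAR (subset_closure hu)⟩, fun hsub => ?_⟩
        have := hsub ⟨⟨hyD, hyQ⟩, hyR⟩
        exact hyA (subset_closure this)
      simp only at h1
      omega
    apply hPQ'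
    rw [eqof P R hPR, ← eqof Q R hQR]
    exact Set.inter_subset_right

theorem baer_suzuki [Finite M] {p : ℕ} [Fact p.Prime] (b : M)
    (h : ∀ g : M, IsPGroup p (closure ({b, g * b * g⁻¹} : Set M))) :
    IsPGroup p (normalClosure ({b} : Set M)) := by
  have key := baer_suzuki_set (p := p) (D := {x | ∃ g : M, x = g * b * g⁻¹}) ?_ ?_
  · refine key.to_le ?_
    rw [normalClosure]
    apply Subgroup.closure_mono
    intro x hx
    rw [Group.mem_conjugatesOfSet_iff] at hx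
    obtain ⟨a, ha, hc⟩ := hx
    rw [Set.mem_singleton_iff] at ha
    subst ha
    obtain ⟨g, hg⟩ := isConj_iff.mp hc
    exact ⟨g, hg.symm⟩
  · rintro g x ⟨k, rfl⟩
    exact ⟨g * k, by group⟩
  · rintro x ⟨g, rfl⟩ y ⟨k, rfl⟩
    -- conjugate of closure {b, g⁻¹ k b k⁻¹ g}
    have h1 := h (g⁻¹ * k)
    have h2 := h1.map (MulAut.conj g).toMonoidHom
    rw [MonoidHom.map_closure] at h2
    have e : (⇑(MulAut.conj g).toMonoidHom '' {b, g⁻¹ * k * b * (g⁻¹ * k)⁻¹} : Set M)
        = {g * b * g⁻¹, k * b * k⁻¹} := by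
      rw [Set.image_pair]
      congr 1
      · simp
        group
    rw [e] at h2
    exact h2

/-- If all products of two conjugates of `b` ... `b` is in a normal `p`-subgroup. -/
theorem baer_suzuki' [Finite M] {p : ℕ} [Fact p.Prime] (b : M)
    (h : ∀ g : M, IsPGroup p (closure ({b, g * b * g⁻¹} : Set M))) :
    ∃ N : Subgroup M, N.Normal ∧ IsPGroup p N ∧ b ∈ N :=
  ⟨normalClosure {b}, normalClosure_normal, baer_suzuki b h, subset_normalClosure rfl⟩

end Pool.H59.BS
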