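import Pool.Agent.H59.BS.BS

/-! # An involution outside every normal 2-subgroup inverts an element of odd prime order -/

namespace Pool.H59.BS

open Subgroup

variable {M : Type*} [Group M]

/-- Two involutions whose product is a 2-element generate a 2-group. -/
theorem pgroup_two_of_prod [Finite M] {z w : M} (hz : z * z = 1) (hw : w * w = 1)
    (h : ∃ k, orderOf (z * w) ∣ 2 ^ k) : IsPGroup 2 (closure ({z, w} : Set M)) := by
  obtain ⟨k, hk⟩ := h
  have hzi : z⁻¹ = z := inv_eq_of_mul_eq_one_left hz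
  have hwi : w⁻¹ = w := inv_eq_of_mul_eq_one_left hw
  have h1 : IsPGroup 2 (zpowers (z * w)) := by
    apply IsPGroup.of_card_dvd_pow (n := k)
    rw [Nat.card_zpowers]; exact hk
  have h2 : IsPGroup 2 (zpowers z) := by
    apply IsPGroup.of_card_dvd_pow (n := 1)
    rw [Nat.card_zpowers, pow_one]
    apply orderOf_dvd_of_pow_eq_one
    rw [pow_two, hz]
  have hconj : z * (z * w) * z⁻¹ = (z * w)⁻¹ := by
    rw [mul_inv_rev, hzi, hwi, ← mul_assoc, hz, one_mul]
  have hn : zpowers z ≤ normalizer (zpowers (z * w) : Set M) := by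
    rw [zpowers_le]
    apply mem_norm_of_conj
    intro a ha
    obtain ⟨m, rfl⟩ := mem_zpowers_iff.mp ha
    rw [← conj_zpow, hconj]
    exact zpow_mem (inv_mem (mem_zpowers _)) _
  have h3 := IsPGroup.to_sup_of_normal_right' h2 h1 hn
  refine h3.to_le ?_
  rw [closure_le]
  rintro x hx
  have hz' : z ∈ zpowers z ⊔ zpowers (z * w) := le_sup_left (a := zpowers z) (mem_zpowers z)
  have hzw : z * w ∈ zpowers z ⊔ zpowers (z * w) :=
    le_sup_right (a := zpowers z) (mem_zpowers (z * w))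
  rcases hx with rfl | hx
  · exact hz'
  · rw [Set.mem_singleton_iff] at hx
    subst hx
    have := mul_mem hz' hzw
    rwa [← mul_assoc, hz, one_mul] at this

theorem conj_inv_pow {z w : M} (hz : z * z = 1) (hw : w * w = 1) (n : ℕ) :
    z * (z * w) ^ n * z = ((z * w) ^ n)⁻¹ := by
  have hzi : z⁻¹ = z := inv_eq_of_mul_eq_one_left hz
  have hwi : w⁻¹ = w := inv_eq_of_mul_eq_one_left hw
  have hconj : z * (z * w) * z⁻¹ = (z * w)⁻¹ := by
    rw [mul_inv_rev, hzi, hwi, ← mul_assoc, hz, one_mul]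
  have : z * (z * w) ^ n * z⁻¹ = ((z * w) ^ n)⁻¹ := by
    rw [← conj_pow, hconj, inv_pow]
  rwa [hzi] at this

/-- An involution `z` which lies in no normal 2-subgroup inverts an element of odd prime order
(a power of `z * z^g`). -/
theorem exists_inverted [Finite M] {z : M} (hz : z * z = 1)
    (hno : ∀ N : Subgroup M, N.Normal → IsPGroup 2 N → z ∉ N) :
    ∃ p : ℕ, p.Prime ∧ p ≠ 2 ∧ ∃ b g : M, orderOf b = p ∧ z * b * z = b⁻¹ ∧
      ∃ n : ℕ, b = (z * (g * z * g⁻¹)) ^ n := by
  by_contra hcon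
  have : Fact (Nat.Prime 2) := ⟨Nat.prime_two⟩
  obtain ⟨N, hN, hN2, hzN⟩ := baer_suzuki' (p := 2) z (by
    intro g
    have hw : (g * z * g⁻¹) * (g * z * g⁻¹) = 1 := by
      have : (g * z * g⁻¹) * (g * z * g⁻¹) = g * (z * z) * g⁻¹ := by group
      rw [this, hz]; group
    apply pgroup_two_of_prod hz hw
    -- the order of z * z^g is a power of two
    by_contra hk
    push Not at hk
    have hpos : 0 < orderOf (z * (g * z * g⁻¹)) := orderOf_pos _
    -- an odd prime divisor
    have hex : ∃ p, p.Prime ∧ p ∣ orderOf (z * (g * z * g⁻¹)) ∧ p ≠ 2 := by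
      by_contra hne
      push Not at hne
      have h2 : orderOf (z * (g * z * g⁻¹)) = 2 ^ (orderOf (z * (g * z * g⁻¹))).primeFactorsList.length :=
        Nat.eq_prime_pow_of_unique_prime_dvd hpos.ne' (fun {d} hd hdd => hne d hd hdd)
      exact hk _ (dvd_of_eq h2)
    obtain ⟨p, hp, hpd, hp2⟩ := hex
    apply hcon
    refine ⟨p, hp, hp2, (z * (g * z * g⁻¹)) ^ (orderOf (z * (g * z * g⁻¹)) / p), g, ?_, ?_, _, rfl⟩
    · exact orderOf_pow_orderOf_div hpos.ne' hpd
    · exact conj_inv_pow hz hw _)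
  exact hno N hN hN2 hzN

end Pool.H59.BS
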